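import Pool.Agent.H369.TH.Stm

/-! Project CK (helper369), TH5: division of theta functions by `theta P a` (helper553). -/

set_option autoImplicit false

namespace Pool.Agent.H553.TH

open Pool.Agent.H369.TH

section
variable {Γ K : Type} [AddCommGroup Γ] [LinearOrder Γ] [IsOrderedAddMonoid Γ] [Field K]

theorem ng_ng (a : Pt Γ K) : ng (ng a) = a := by
  have h : (ng1 : Pt Γ K) * ng1 = 1 := by
    unfold ng1
    ext <;> simp
  unfold ng
  rw [← mul_assoc, h, one_mul]

theorem ng_mul_ng (a b : Pt Γ K) : ng a * ng b = a * b := by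
  have h : (ng1 : Pt Γ K) * ng1 = 1 := by
    unfold ng1
    ext <;> simp
  unfold ng
  calc ng1 * a * (ng1 * b) = ng1 * ng1 * (a * b) := by
        rw [mul_mul_mul_comm]
    _ = a * b := by rw [h, one_mul]

theorem ng_mul (a b : Pt Γ K) : ng (a * b) = ng a * b := by
  unfold ng
  rw [mul_assoc]

theorem snd_qq_zpow (P : Γ) (k : ℤ) : ((qq P : Pt Γ K) ^ k).2 = 1 := by
  have h : ((qq P : Pt Γ K) ^ k).2 = (qq P : Pt Γ K).2 ^ k := rfl
  rw [h]
  show (1 : Kˣ) ^ k = 1
  rw [one_zpow]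

/-- points with different residues are different modulo `qq P` -/
theorem ne_of_snd {P : Γ} {a b : Pt Γ K} (h : a.2 ≠ b.2) (k : ℤ) : a ≠ b * qq P ^ k := by
  intro h1
  apply h
  rw [h1]
  show b.2 * ((qq P : Pt Γ K) ^ k).2 = b.2
  rw [snd_qq_zpow, mul_one]

theorem exists_xi [CharZero K] (d : Kˣ) : ∃ ξ : Kˣ, ξ ≠ 1 ∧ ξ ≠ d := by
  by_cases h : (d : K) = 2
  · refine ⟨Units.mk0 (3 : K) (by norm_num), ?_, ?_⟩
    · intro h1
      have h2 := congrArg Units.val h1
      simp only [Units.val_mk0, Units.val_one] at h2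
      norm_num at h2
    · intro h1
      have h2 := congrArg Units.val h1
      simp only [Units.val_mk0] at h2
      rw [h] at h2
      norm_num at h2
  · refine ⟨Units.mk0 (2 : K) (by norm_num), ?_, ?_⟩
    · intro h1
      have h2 := congrArg Units.val h1
      simp only [Units.val_mk0, Units.val_one] at h2
      norm_num at h2
    · intro h1
      have h2 := congrArg Units.val h1
      simp only [Units.val_mk0] at h2
      exact h h2.symm

theorem coeff0_mul {A : Type} [CommRing A] (p q : PowerSeries A) :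
    PowerSeries.coeff 0 (p * q) = PowerSeries.coeff 0 p * PowerSeries.coeff 0 q := by
  simp only [PowerSeries.coeff_zero_eq_constantCoeff_apply, map_mul]

theorem coeffk {A : Type} [CommRing A] (p q : PowerSeries A) (hp : PowerSeries.coeff 0 p = 0)
    (k : ℕ) : PowerSeries.coeff k (p ^ k * q) =
      PowerSeries.coeff 1 p ^ k * PowerSeries.coeff 0 q := by
  obtain ⟨u, hu⟩ : PowerSeries.X ∣ p := by
    rw [PowerSeries.X_dvd_iff, ← PowerSeries.coeff_zero_eq_constantCoeff_apply]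
    exact hp
  have h1 : PowerSeries.coeff 1 p = PowerSeries.coeff 0 u := by
    rw [hu]
    exact PowerSeries.coeff_succ_X_mul 0 u
  have h2 : p ^ k * q = PowerSeries.X ^ k * (u ^ k * q) := by
    rw [hu]; ring
  have h3 := PowerSeries.coeff_X_pow_mul (u ^ k * q) k 0
  rw [zero_add] at h3
  rw [h2, h3, coeff0_mul, h1]
  congr 1
  simp only [PowerSeries.coeff_zero_eq_constantCoeff_apply, map_pow]

end

section lin

theorem lin_main' {F W U : Type} [Field F] [AddCommGroup W] [Module F W] [AddCommGroup U]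
    [Module F U] (n : ℕ) (hW : Module.finrank F W = n + 2) (hU : Module.finrank F U = n + 1)
    (ev : W →ₗ[F] F) (w0 : W) (h0 : ev w0 ≠ 0) (μ : U →ₗ[F] W) (hμ : Function.Injective μ)
    (hμe : ∀ u, ev (μ u) = 0) (x : W) (hx : ev x = 0) : ∃ u, μ u = x := by
  haveI f1 : Module.Finite F W := Module.finite_of_finrank_pos (by rw [hW]; omega)
  haveI f2 : Module.Finite F U := Module.finite_of_finrank_pos (by rw [hU]; omega)
  have hsurj : Function.Surjective ev := by
    intro z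
    refine ⟨(z * (ev w0)⁻¹) • w0, ?_⟩
    rw [map_smul, smul_eq_mul, mul_assoc, inv_mul_cancel₀ h0, mul_one]
  have hker : Module.finrank F (LinearMap.ker ev) = n + 1 := by
    have h5 := LinearMap.finrank_range_add_finrank_ker ev
    rw [LinearMap.range_eq_top.2 hsurj, finrank_top, Module.finrank_self, hW] at h5
    omega
  have hinj : Function.Injective (μ.codRestrict (LinearMap.ker ev) fun u => hμe u) := by
    intro a b hab
    exact hμ (congrArg Subtype.val hab)
  have hsur : Function.Surjective (μ.codRestrict (LinearMap.ker ev) fun u => hμe u) :=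
    (LinearMap.injective_iff_surjective_of_finrank_eq_finrank (by rw [hU, hker])).1 hinj
  obtain ⟨u, hu⟩ := hsur ⟨x, hx⟩
  exact ⟨u, congrArg Subtype.val hu⟩

theorem lin_main {F W U : Type} [CommRing F] (hF : IsField F) [AddCommGroup W] [Module F W]
    [AddCommGroup U] [Module F U] (n : ℕ) (hW : Module.finrank F W = n + 2)
    (hU : Module.finrank F U = n + 1)
    (ev : W →ₗ[F] F) (w0 : W) (h0 : ev w0 ≠ 0) (μ : U →ₗ[F] W) (hμ : Function.Injective μ)
    (hμe : ∀ u, ev (μ u) = 0) (x : W) (hx : ev x = 0) : ∃ u, μ u = x := by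
  letI : Field F := hF.toField
  exact lin_main' n hW hU ev w0 h0 μ hμ hμe x hx

theorem lin_one' {F W : Type} [Field F] [AddCommGroup W] [Module F W]
    (hW : Module.finrank F W = 1) (v : W) (hv : v ≠ 0) (w : W) : ∃ c : F, c • v = w :=
  (finrank_eq_one_iff_of_nonzero' v hv).1 hW w

theorem lin_one {F W : Type} [CommRing F] (hF : IsField F) [AddCommGroup W] [Module F W]
    (hW : Module.finrank F W = 1) (v : W) (hv : v ≠ 0) (w : W) : ∃ c : F, c • v = w := by
  letI : Field F := hF.toField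
  exact lin_one' hW v hv w

theorem lin_sub {F E : Type} [CommRing F] (hF : IsField F) [CommRing E] [Algebra F E] [IsDomain E]
    (W U : Submodule F E) (θ : E) (hθ : θ ≠ 0) (hmul : ∀ u ∈ U, θ * u ∈ W) (L : E →ₗ[F] F)
    (hL : ∀ u, L (θ * u) = 0) (n : ℕ) (hW : Module.finrank F W = n + 2)
    (hU : Module.finrank F U = n + 1) (g : E) (hg : g ∈ W) (hg0 : L g ≠ 0) (f : E) (hf : f ∈ W)
    (h0 : L f = 0) : ∃ f' ∈ U, f = θ * f' := by
  obtain ⟨μ, hμ⟩ : ∃ μ : U →ₗ[F] W, ∀ x, ((μ x : W) : E) = θ * (x : E) :=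
    ⟨{ toFun := fun x => ⟨θ * (x : E), hmul _ x.2⟩
       map_add' := fun x y => Subtype.ext (mul_add _ _ _)
       map_smul' := fun z x => Subtype.ext (mul_smul_comm _ _ _) }, fun x => rfl⟩
  have a2 : Function.Injective μ := by
    intro x y hxy
    have h5 := congrArg (fun w : W => (w : E)) hxy
    simp only [hμ] at h5
    exact Subtype.ext (mul_left_cancel₀ hθ h5)
  obtain ⟨x, hx⟩ := lin_main hF n hW hU (L.comp W.subtype) ⟨g, hg⟩ hg0 μ a2
    (fun u => by
      show L ((μ u : W) : E) = 0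
      rw [hμ, hL]) ⟨f, hf⟩ h0
  refine ⟨x, x.2, ?_⟩
  rw [← hμ x, hx]

theorem lin_sub1 {F E : Type} [CommRing F] (hF : IsField F) [CommRing E] [Algebra F E]
    (W : Submodule F E) (hW : Module.finrank F W = 1) (f : E) (hf : f ∈ W) (hf0 : f ≠ 0)
    (g : E) (hg : g ∈ W) : ∃ z : F, z • f = g := by
  obtain ⟨z, hz⟩ := lin_one hF hW ⟨f, hf⟩ (fun h => hf0 (congrArg Subtype.val h)) ⟨g, hg⟩
  exact ⟨z, congrArg Subtype.val hz⟩

theorem isField_HG {Γ K : Type} [AddCommGroup Γ] [LinearOrder Γ] [IsOrderedAddMonoid Γ] [Field K] :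
    IsField (HG Γ K) := Field.toIsField _

end lin

section main
variable {Γ K : Type} [AddCommGroup Γ] [LinearOrder Γ] [IsOrderedAddMonoid Γ] [Field K] [CharZero K]

theorem T_smul (a : Pt Γ K) (z : HG Γ K) (f : Ent Γ K) (l : ℕ) :
    PowerSeries.coeff l (T a (z • f)) = z * PowerSeries.coeff l (T a f) := by
  rw [smul_def', map_mul, T_cst, PowerSeries.coeff_C_mul]

/-- functions of degree at least two which do not vanish at `a` -/
theorem exists_nv (h3 : S_Th) (h4 : S_theta) {P : Γ} (hP : Big P) (a : Pt Γ K) (n : ℕ) :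
    ∀ c : Pt Γ K, ∃ g ∈ Th P ((n : ℤ) + 2) c, PowerSeries.coeff 0 (T a g) ≠ 0 := by
  obtain ⟨-, -, -, hmul, -⟩ := h3 Γ K P hP
  induction n with
  | zero =>
    intro c
    obtain ⟨ξ, hξ1, hξ2⟩ := exists_xi (c.2 * (a.2 * a.2)⁻¹)
    have hb := h4 Γ K P hP (a * (1, ξ))
    have hb' := h4 Γ K P hP (c * (a * (1, ξ))⁻¹)
    refine ⟨theta P (a * (1, ξ)) * theta P (c * (a * (1, ξ))⁻¹), ?_, ?_⟩
    · have h := hmul _ _ _ _ _ _ hb.1 hb'.1
      rw [ng_mul_ng] at h
      have e1 : a * (1, ξ) * (c * (a * (1, ξ))⁻¹) = c := by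
        rw [mul_comm c, mul_inv_cancel_left]
      rw [e1] at h
      have e2 : ((0 : ℕ) : ℤ) + 2 = 1 + 1 := by norm_num
      rw [e2]
      exact h
    · rw [map_mul, coeff0_mul]
      refine mul_ne_zero (hb.2.2.2.2 a (ne_of_snd ?_)) (hb'.2.2.2.2 a (ne_of_snd ?_))
      · show a.2 ≠ a.2 * ξ
        intro h
        exact hξ1 (mul_left_cancel (h.symm.trans (mul_one _).symm))
      · show a.2 ≠ c.2 * (a.2 * ξ)⁻¹
        intro h
        apply hξ2
        have e1 : a.2 * (a.2 * ξ) = c.2 := by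
          rw [eq_mul_inv_iff_mul_eq] at h
          exact h
        rw [eq_mul_inv_iff_mul_eq, ← e1]
        ac_rfl
  | succ n ih =>
    intro c
    obtain ⟨g, hg, hg0⟩ := ih (c * a⁻¹)
    have hb := h4 Γ K P hP (ng a)
    refine ⟨g * theta P (ng a), ?_, ?_⟩
    · have h := hmul _ _ _ _ _ _ hg hb.1
      rw [ng_ng, inv_mul_cancel_right] at h
      have e2 : ((n + 1 : ℕ) : ℤ) + 2 = (n : ℤ) + 2 + 1 := by push_cast; ring
      rw [e2]
      exact h
    · rw [map_mul, coeff0_mul]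
      refine mul_ne_zero hg0 (hb.2.2.2.2 a (ne_of_snd ?_))
      show a.2 ≠ -1 * a.2
      intro h
      have h1 := congrArg Units.val h
      simp only [Units.val_mul, Units.val_neg, Units.val_one, neg_mul, one_mul] at h1
      have h2 : (2 : K) * (a.2 : K) = 0 := by linear_combination h1
      rcases mul_eq_zero.1 h2 with h3 | h3
      · norm_num at h3
      · exact a.2.ne_zero h3

/-- one zero, degree at least two -/
theorem div_ge2 (h1 : S_rules) (h3 : S_Th) (h4 : S_theta) {P : Γ} (hP : Big P) (a c : Pt Γ K)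
    (n : ℕ) (f : Ent Γ K) (hf : f ∈ Th P ((n : ℤ) + 2) c) (h0 : PowerSeries.coeff 0 (T a f) = 0) :
    ∃ f' ∈ Th P ((n : ℤ) + 1) (c * (ng a)⁻¹), f = theta P a * f' := by
  obtain ⟨-, -, -, hmul, hrank, -⟩ := h3 Γ K P hP
  obtain ⟨hdom, -⟩ := h1 Γ K
  obtain ⟨hθ, hθ0, hθa, -⟩ := h4 Γ K P hP a
  obtain ⟨g, hg, hg0⟩ := exists_nv h3 h4 hP a n c
  have r1 : Module.finrank (HG Γ K) (Th P ((n : ℤ) + 2) c) = n + 2 := by
    have := hrank (n + 2) c (by omega)
    push_cast at this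
    exact this
  have r2 : Module.finrank (HG Γ K) (Th P ((n : ℤ) + 1) (c * (ng a)⁻¹)) = n + 1 := by
    have := hrank (n + 1) (c * (ng a)⁻¹) (by omega)
    push_cast at this
    exact this
  exact lin_sub isField_HG (Th P ((n : ℤ) + 2) c) (Th P ((n : ℤ) + 1) (c * (ng a)⁻¹))
    (theta P a) hθ0 (fun x hx => by
      have h5 := hmul _ _ _ _ _ _ hθ hx
      have e1 : ng a * (c * (ng a)⁻¹) = c := by rw [mul_comm c, mul_inv_cancel_left]
      have e2 : (1 : ℤ) + ((n : ℤ) + 1) = (n : ℤ) + 2 := by ring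
      rw [e1, e2] at h5
      exact h5) (Tl a 0) (fun x => by
      show PowerSeries.coeff 0 (T a (theta P a * x)) = 0
      rw [map_mul, coeff0_mul, hθa, zero_mul]) n r1 r2 g hg hg0 f hf h0

/-- one zero, degree one -/
theorem div_one (h1 : S_rules) (h3 : S_Th) (h4 : S_theta) {P : Γ} (hP : Big P) (a c : Pt Γ K)
    (f : Ent Γ K) (hf : f ∈ Th P 1 c) (h0 : PowerSeries.coeff 0 (T a f) = 0) :
    ∃ f' ∈ Th P 0 (c * (ng a)⁻¹), f = theta P a * f' := by
  obtain ⟨-, -, -, hmul, hrank, -, hmono, -⟩ := h3 Γ K P hP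
  obtain ⟨hdom, -⟩ := h1 Γ K
  obtain ⟨hθ, hθ0, hθa, -⟩ := h4 Γ K P hP a
  by_cases hf0 : f = 0
  · exact ⟨0, Submodule.zero_mem _, by rw [hf0, mul_zero]⟩
  have r1 : Module.finrank (HG Γ K) (Th P 1 c) = 1 := by
    have := hrank 1 c one_pos
    push_cast at this
    exact this
  have hne : (⟨f, hf⟩ : Th P 1 c) ≠ 0 := fun h => hf0 (congrArg Subtype.val h)
  have hspan : ∀ w : Th P 1 c, ∃ z : HG Γ K, z • (⟨f, hf⟩ : Th P 1 c) = w :=
    lin_one (F := HG Γ K) isField_HG (W := Th P 1 c) r1 ⟨f, hf⟩ hne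
  obtain ⟨hg, hg0, -, -, hgb⟩ := h4 Γ K P hP (ng c)
  rw [ng_ng] at hg
  obtain ⟨z, hz⟩ := hspan ⟨theta P (ng c), hg⟩
  have hz' : z • f = theta P (ng c) := congrArg Subtype.val hz
  have hva : PowerSeries.coeff 0 (T a (theta P (ng c))) = 0 := by
    rw [← hz', T_smul, h0, mul_zero]
  obtain ⟨j, hj⟩ : ∃ j : ℤ, a = ng c * qq P ^ j := by
    by_contra hc
    push Not at hc
    exact hgb a hc hva
  have hna : ng a = c * qq P ^ j := by
    rw [hj, ng_mul, ng_ng]
  have hm := hmono (-j)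
  have hprod : theta P a * mono (-j) ∈ Th P 1 c := by
    have h5 := hmul _ _ _ _ _ _ hθ hm
    rw [hna, mul_assoc, ← zpow_add, add_neg_cancel, zpow_zero, mul_one, add_zero] at h5
    exact h5
  obtain ⟨w, hw⟩ := hspan ⟨theta P a * mono (-j), hprod⟩
  have hw' : w • f = theta P a * mono (-j) := congrArg Subtype.val hw
  have hmono0 : (mono (-j) : Ent Γ K) ≠ 0 := by
    obtain ⟨-, -, -, -, -, -, hmm, hm0, -⟩ := h1 Γ K
    intro h5
    have h6 := hmm (-j) j
    rw [h5, zero_mul, neg_add_cancel, hm0] at h6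
    exact zero_ne_one h6
  have hw0 : w ≠ 0 := by
    intro h5
    rw [h5, smul_def', map_zero, zero_mul] at hw'
    exact mul_ne_zero hθ0 hmono0 hw'.symm
  refine ⟨w⁻¹ • mono (-j), ?_, ?_⟩
  · have e1 : c * (ng a)⁻¹ = qq P ^ (-j) := by
      rw [hna, mul_inv_rev, mul_comm, inv_mul_cancel_right, zpow_neg]
    rw [e1]
    exact Submodule.smul_mem _ _ hm
  · have h5 : f = w⁻¹ • (theta P a * mono (-j)) := by
      rw [← hw', smul_smul, inv_mul_cancel₀ hw0, one_smul]
    rw [h5, smul_def', smul_def']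
    ring

/-- one zero -/
theorem div1 (h1 : S_rules) (h2 : S_T) (h3 : S_Th) (h4 : S_theta) {P : Γ} (hP : Big P) (e : ℤ)
    (a c : Pt Γ K) (f : Ent Γ K) (hf : f ∈ Th P e c) (h0 : PowerSeries.coeff 0 (T a f) = 0) :
    ∃ f' ∈ Th P (e - 1) (c * (ng a)⁻¹), f = theta P a * f' := by
  rcases lt_trichotomy e 0 with he | he | he
  · obtain ⟨-, -, -, -, -, hneg, -⟩ := h3 Γ K P hP
    rw [hneg e c he, Submodule.mem_bot] at hf
    exact ⟨0, Submodule.zero_mem _, by rw [hf, mul_zero]⟩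
  · subst he
    by_cases hf0 : f = 0
    · exact ⟨0, Submodule.zero_mem _, by rw [hf0, mul_zero]⟩
    exfalso
    obtain ⟨-, -, -, -, -, -, -, hzero⟩ := h3 Γ K P hP
    obtain ⟨k, z, -, hz, hfz⟩ := hzero c f hf hf0
    obtain ⟨-, hT, -⟩ := h2 Γ K
    obtain ⟨-, -, -, -, -, -, -, -, -, -, -, hcc⟩ := h1 Γ K
    rw [hfz, map_mul, T_cst, PowerSeries.coeff_C_mul, (hT a k).2] at h0
    exact mul_ne_zero hz (hcc _) h0
  · obtain ⟨n, rfl⟩ : ∃ n : ℕ, e = (n : ℤ) + 1 := ⟨(e - 1).toNat, by omega⟩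
    rcases n with _ | n
    · have e1 : ((0 : ℕ) : ℤ) + 1 = 1 := by norm_num
      rw [e1] at hf ⊢
      rw [sub_self]
      exact div_one h1 h3 h4 hP a c f hf h0
    · have e1 : ((n + 1 : ℕ) : ℤ) + 1 = (n : ℤ) + 2 := by push_cast; ring
      rw [e1] at hf ⊢
      have e2 : (n : ℤ) + 2 - 1 = (n : ℤ) + 1 := by ring
      rw [e2]
      exact div_ge2 h1 h3 h4 hP a c n f hf h0

end main

theorem div (h1 : S_rules) (h2 : S_T) (h3 : S_Th) (h4 : S_theta) : S_div := by
  intro Γ K _ _ _ _ _ P hP e c a f hf k hk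
  induction k with
  | zero =>
    refine ⟨f, ?_, by rw [pow_zero, one_mul]⟩
    have e1 : e - ((0 : ℕ) : ℤ) = e := by simp
    have e2 : c * ng a ^ (-((0 : ℕ) : ℤ)) = c := by simp
    rw [e1, e2]
    exact hf
  | succ k ih =>
    obtain ⟨f₁, hf₁, hff⟩ := ih fun l hl => hk l (by omega)
    obtain ⟨-, -, hθa, hθ1, -⟩ := h4 Γ K P hP a
    have h5 := hk k (by omega)
    rw [hff, map_mul, map_pow, coeffk _ _ hθa] at h5
    have h6 : PowerSeries.coeff 0 (T a f₁) = 0 :=
      (mul_eq_zero.1 h5).resolve_left (pow_ne_zero _ hθ1)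
    obtain ⟨f₂, hf₂, hff₂⟩ := div1 h1 h2 h3 h4 hP _ a _ f₁ hf₁ h6
    refine ⟨f₂, ?_, ?_⟩
    · have e1 : e - ((k + 1 : ℕ) : ℤ) = e - (k : ℤ) - 1 := by push_cast; ring
      have e2 : c * ng a ^ (-((k + 1 : ℕ) : ℤ)) = c * ng a ^ (-(k : ℤ)) * (ng a)⁻¹ := by
        rw [mul_assoc, ← zpow_sub_one]
        congr 2
        push_cast
        ring
      rw [e1, e2]
      exact hf₂
    · rw [hff, hff₂, pow_succ]
      ring

end Pool.Agent.H553.TH
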